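import Pool.Agent.TC75.Count

set_option autoImplicit false

/-!
The number of all systems of representatives of all the lattices.
-/

namespace Pool.Agent.TC75

open Finset

theorem card_Y (n k : ℕ) : Fintype.card (Y n k) = n ^ k := by
  rw [Fintype.card_coe, Fintype.card_piFinset]
  simp

/-- functions which avoid a pattern at two places -/
theorem card_good {Z : Type*} [Fintype Z] [DecidableEq Z] {y y' : Z} (h : y ≠ y') :
    9 * (univ.filter fun g : Z → Fin 3 => ¬ (g y = 0 ∧ g y' = 1)).card ≤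
      8 * 3 ^ Fintype.card Z := by
  have h1 : 3 ^ Fintype.card Z ≤ 9 * (univ.filter fun g : Z → Fin 3 => g y = 0 ∧ g y' = 1).card := by
    have h2 : (univ : Finset (Z → Fin 3)).card ≤
        ((univ.filter fun g : Z → Fin 3 => g y = 0 ∧ g y' = 1) ×ˢ
          (univ : Finset (Fin 3 × Fin 3))).card := by
      apply card_le_card_of_injOn
        (fun g => (Function.update (Function.update g y 0) y' 1, (g y, g y')))
      · intro g _
        simp only [coe_product, coe_filter, mem_univ, true_and, coe_univ, Set.mem_prod,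
          Set.mem_univ, and_true]
        show _ ∧ _
        constructor
        · rw [Function.update_of_ne h, Function.update_self]
        · rw [Function.update_self]
      · intro g _ g' _ hgg
        simp only [Prod.mk.injEq] at hgg
        obtain ⟨e1, e2, e3⟩ := hgg
        funext z
        by_cases hz : z = y'
        · rw [hz, e3]
        · by_cases hz2 : z = y
          · rw [hz2, e2]
          · have := congrFun e1 z
            rwa [Function.update_of_ne hz, Function.update_of_ne hz2, Function.update_of_ne hz,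
              Function.update_of_ne hz2] at this
    rw [card_product, card_univ, card_univ, Fintype.card_fun, Fintype.card_fin,
      Fintype.card_prod, Fintype.card_fin] at h2
    linarith
  have h3 := card_filter_add_card_filter_not (s := (univ : Finset (Z → Fin 3)))
    (fun g => g y = 0 ∧ g y' = 1)
  rw [card_univ, Fintype.card_fun, Fintype.card_fin] at h3
  omega

/-- the parameters -/
abbrev Idx (n k : ℕ) : Type := (Fin k → Fin (n - 1)) × Par n k

theorem card_Idx (n k : ℕ) : Fintype.card (Idx n k) = (n - 1) ^ k * n ^ (k.choose 2) := by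
  rw [Fintype.card_prod, card_par, Fintype.card_fun, Fintype.card_fin, Fintype.card_fin]

/-- the vector of the parameter -/
def av {n k : ℕ} (v : Fin k → Fin (n - 1)) : Fin k → ℤ := fun i => ((v i : ℕ) : ℤ) + 1

theorem av_mem {n k : ℕ} (v : Fin k → Fin (n - 1)) (i : Fin k) : 1 ≤ av v i ∧ av v i < n := by
  have := (v i).isLt
  unfold av
  omega

theorem av_inj {n k : ℕ} {v w : Fin k → Fin (n - 1)} (h : av v = av w) : v = w := by
  funext i
  have := congrFun h i
  simp only [av, add_left_inj, Nat.cast_inj] at this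
  exact Fin.ext this

section
variable {s n k : ℕ} (hn : 1 ≤ n)

open Classical in
/-- all systems of representatives for one lattice -/
noncomputable def FF (s : ℕ) (q : Idx n k) : Finset (Finset (Fin (k + 1) → ℤ)) :=
  univ.image fun f : Fin s → Y n k → Fin 3 => SS hn (av q.1) q.2 f

theorem card_FF (hs : 1 ≤ s) (q : Idx n k) : (FF hn s q).card = 3 ^ (s * n ^ k) := by
  classical
  unfold FF
  rw [card_image_of_injective _ (SS_inj hn hs _ _), card_univ, Fintype.card_fun, Fintype.card_fun,
    card_Y, Fintype.card_fin, Fintype.card_fin, ← pow_mul, mul_comm]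

open Classical in
theorem card_inter_FF (hs : 1 ≤ s) {q q' : Idx n k} (hqq : q ≠ q') :
    9 ^ s * (FF hn s q ∩ FF hn s q').card ≤ 8 ^ s * 3 ^ (s * n ^ k) := by
  -- a place where the translations differ
  obtain ⟨y, hy, hne⟩ : ∃ y ∈ Cu n k, red hn q.2 (y + av q.1) ≠ red hn q'.2 (y + av q'.1) := by
    by_contra hcon
    push Not at hcon
    obtain ⟨h1, h2⟩ := inj hn k q.2 q'.2 (av q.1) (av q'.1) (av_mem _) (av_mem _) hcon
    exact hqq (Prod.ext (av_inj h1) h2)
  set y1 : Y n k := ⟨y, mem_Cu_iff.2 hy⟩ with hy1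
  set y2 : Y n k := ⟨red hn q.2 (red hn q'.2 (y + av q'.1) - av q.1),
    mem_Cu_iff.2 (red_mem hn _ _)⟩ with hy2
  have hyy : red hn q.2 (y2.1 + av q.1) = red hn q'.2 (y1.1 + av q'.1) := by
    apply red_eq hn (red_mem hn _ _)
    have := (Lat n k q.2).neg_mem (red_sub hn q.2 (red hn q'.2 (y + av q'.1) - av q.1))
    convert this using 1
    simp only [hy1, hy2]
    abel
  have hne' : y1 ≠ y2 := by
    intro h
    rw [← h] at hyy
    exact hne hyy
  have h1 : (FF hn s q ∩ FF hn s q').card ≤ (Fintype.piFinset fun _ : Fin s =>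
      (univ.filter fun g : Y n k → Fin 3 => ¬ (g y1 = 0 ∧ g y2 = 1))).card := by
    have hsub : FF hn s q ∩ FF hn s q' ⊆ (Fintype.piFinset fun _ : Fin s =>
        (univ.filter fun g : Y n k → Fin 3 => ¬ (g y1 = 0 ∧ g y2 = 1))).image
          (fun f => SS hn (av q.1) q.2 f) := by
      intro S hS
      rw [mem_inter] at hS
      obtain ⟨hS1, hS2⟩ := hS
      unfold FF at hS1 hS2
      obtain ⟨f, _, rfl⟩ := mem_image.1 hS1
      obtain ⟨g, _, hg⟩ := mem_image.1 hS2
      refine mem_image.2 ⟨f, ?_, rfl⟩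
      rw [Fintype.mem_piFinset]
      intro i
      rw [mem_filter]
      exact ⟨mem_univ _, common hn hs hyy hg.symm i⟩
    exact (card_le_card hsub).trans card_image_le
  rw [Fintype.card_piFinset_const, ] at h1
  have h2 := card_good hne'
  rw [card_Y] at h2
  calc 9 ^ s * (FF hn s q ∩ FF hn s q').card
      ≤ 9 ^ s * (univ.filter fun g : Y n k → Fin 3 => ¬ (g y1 = 0 ∧ g y2 = 1)).card ^ s :=
        Nat.mul_le_mul_left _ h1
    _ = (9 * (univ.filter fun g : Y n k → Fin 3 => ¬ (g y1 = 0 ∧ g y2 = 1)).card) ^ s := by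
        rw [mul_pow]
    _ ≤ (8 * 3 ^ n ^ k) ^ s := Nat.pow_le_pow_left h2 s
    _ = 8 ^ s * 3 ^ (s * n ^ k) := by rw [mul_pow, ← pow_mul, mul_comm (n ^ k) s]

open Classical in
/-- the number of all systems of representatives -/
theorem union_ge (hs : 1 ≤ s) :
    (Fintype.card (Idx n k) : ℝ) * (3 ^ (s * n ^ k) - Fintype.card (Idx n k) *
      ((8 / 9 : ℝ) ^ s * 3 ^ (s * n ^ k))) ≤
      (univ.biUnion fun q : Idx n k => FF hn s q).card := by
  set G : Idx n k → Finset (Finset (Fin (k + 1) → ℤ)) := fun q =>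
    FF hn s q \ (univ.erase q).biUnion fun q' => FF hn s q' with hG
  have hdisj : Set.PairwiseDisjoint ((univ : Finset (Idx n k)) : Set (Idx n k)) G := by
    intro q _ q' _ hqq
    rw [Function.onFun, Finset.disjoint_left]
    intro S h1 h2
    rw [hG, mem_sdiff] at h1
    have h2' := (mem_sdiff.1 h2).1
    exact h1.2 (mem_biUnion.2 ⟨q', mem_erase.2 ⟨Ne.symm hqq, mem_univ _⟩, h2'⟩)
  have hsub : univ.biUnion G ⊆ univ.biUnion fun q : Idx n k => FF hn s q := by
    intro S hS
    obtain ⟨q, hq, hSq⟩ := mem_biUnion.1 hS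
    exact mem_biUnion.2 ⟨q, hq, (mem_sdiff.1 hSq).1⟩
  have h1 : ∑ q, (G q).card ≤ (univ.biUnion fun q : Idx n k => FF hn s q).card := by
    rw [← card_biUnion hdisj]
    exact card_le_card hsub
  have h2 : ∀ q, (3 : ℝ) ^ (s * n ^ k) - Fintype.card (Idx n k) *
      ((8 / 9 : ℝ) ^ s * 3 ^ (s * n ^ k)) ≤ (G q).card := by
    intro q
    have h3 : (FF hn s q).card ≤ (G q).card +
        ∑ q' ∈ univ.erase q, (FF hn s q ∩ FF hn s q').card := by
      have h4 : FF hn s q ⊆ G q ∪ (univ.erase q).biUnion fun q' => FF hn s q ∩ FF hn s q' := by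
        intro S hS
        by_cases hc : S ∈ (univ.erase q).biUnion fun q' => FF hn s q'
        · obtain ⟨q', hq', hS'⟩ := mem_biUnion.1 hc
          exact mem_union_right _ (mem_biUnion.2 ⟨q', hq', mem_inter.2 ⟨hS, hS'⟩⟩)
        · exact mem_union_left _ (mem_sdiff.2 ⟨hS, hc⟩)
      exact (card_le_card h4).trans ((card_union_le _ _).trans
        (Nat.add_le_add_left card_biUnion_le _))
    have h5 : ∀ q' ∈ univ.erase q, ((FF hn s q ∩ FF hn s q').card : ℝ) ≤
        (8 / 9 : ℝ) ^ s * 3 ^ (s * n ^ k) := by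
      intro q' hq'
      have h6 := card_inter_FF hn hs (Ne.symm (ne_of_mem_erase hq'))
      have h7 : (9 : ℝ) ^ s * ((FF hn s q ∩ FF hn s q').card : ℝ) ≤ 8 ^ s * 3 ^ (s * n ^ k) := by
        exact_mod_cast h6
      rw [div_pow, div_mul_eq_mul_div, le_div_iff₀ (by positivity)]
      linarith
    have h8 : (∑ q' ∈ univ.erase q, ((FF hn s q ∩ FF hn s q').card : ℝ)) ≤
        Fintype.card (Idx n k) * ((8 / 9 : ℝ) ^ s * 3 ^ (s * n ^ k)) := by
      refine (sum_le_sum h5).trans ?_
      rw [sum_const, nsmul_eq_mul]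
      apply mul_le_mul_of_nonneg_right _ (by positivity)
      exact_mod_cast card_le_univ _
    have h9 : ((FF hn s q).card : ℝ) ≤ (G q).card +
        ∑ q' ∈ univ.erase q, ((FF hn s q ∩ FF hn s q').card : ℝ) := by exact_mod_cast h3
    rw [card_FF hn hs] at h9
    push_cast at h9
    linarith
  calc (Fintype.card (Idx n k) : ℝ) * (3 ^ (s * n ^ k) - Fintype.card (Idx n k) *
        ((8 / 9 : ℝ) ^ s * 3 ^ (s * n ^ k)))
      = ∑ _q : Idx n k, ((3 : ℝ) ^ (s * n ^ k) - Fintype.card (Idx n k) *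
        ((8 / 9 : ℝ) ^ s * 3 ^ (s * n ^ k))) := by
        rw [sum_const, card_univ, nsmul_eq_mul]
    _ ≤ ∑ q, ((G q).card : ℝ) := sum_le_sum fun q _ => h2 q
    _ ≤ _ := by exact_mod_cast h1

end

theorem eventually_small (e : ℕ) : ∃ s0 : ℕ, ∀ s ≥ s0,
    (3 * (s : ℝ)) ^ e * (8 / 9 : ℝ) ^ s ≤ 1 / 2 := by
  have h1 : Filter.Tendsto (fun s : ℕ => (s : ℝ) ^ e * (8 / 9 : ℝ) ^ s) Filter.atTop (nhds 0) :=
    tendsto_pow_const_mul_const_pow_of_abs_lt_one e (by
      rw [abs_of_nonneg (by norm_num)]; norm_num)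
  have h2 := h1.const_mul ((3 : ℝ) ^ e)
  rw [mul_zero] at h2
  have h3 := h2.eventually (ge_mem_nhds (show (0 : ℝ) < 1 / 2 by norm_num))
  obtain ⟨s0, hs0⟩ := Filter.eventually_atTop.1 h3
  refine ⟨s0, fun s hs => ?_⟩
  have := hs0 s hs
  rw [mul_pow]
  linarith

end Pool.Agent.TC75
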