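import Pool.Agent.TC75.Lattice

set_option autoImplicit false

/-!
Systems of representatives inside the cube, and how many there are.
-/

namespace Pool.Agent.TC75

open Finset

/-- the big lattice (as a set): multiples of `(s, a)` plus `0 × L` -/
def Big (s n k : ℕ) (a : Fin k → ℤ) (p : Par n k) : Set (Fin (k + 1) → ℤ) :=
  {x | ∃ u : ℤ, x 0 = s * u ∧ Fin.tail x - u • a ∈ Lat n k p}

/-- the points of the cube, as a type -/
abbrev Y (n k : ℕ) : Type := {y : Fin k → ℤ // y ∈ Fintype.piFinset fun _ : Fin k => Icc 1 (n : ℤ)}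

theorem mem_Cu_iff {n k : ℕ} {y : Fin k → ℤ} :
    y ∈ (Fintype.piFinset fun _ : Fin k => Icc 1 (n : ℤ)) ↔ y ∈ Cu n k := by
  simp [Cu]

section
variable {s n k : ℕ} (hn : 1 ≤ n)

/-- the points of a class -/
noncomputable def pt (a : Fin k → ℤ) (p : Par n k) (i : Fin s) (y : Fin k → ℤ) (j : Fin 3) :
    Fin (k + 1) → ℤ :=
  Fin.cons (((i : ℕ) : ℤ) + 1 + ((j : ℕ) : ℤ) * s) (red hn p (y + ((j : ℕ) : ℤ) • a))

/-- the system of representatives of `f` -/
noncomputable def SS (a : Fin k → ℤ) (p : Par n k) (f : Fin s → Y n k → Fin 3) :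
    Finset (Fin (k + 1) → ℤ) :=
  univ.image fun z : Fin s × Y n k => pt hn a p z.1 z.2.1 (f z.1 z.2)

theorem mem_SS {a : Fin k → ℤ} {p : Par n k} {f : Fin s → Y n k → Fin 3}
    {x : Fin (k + 1) → ℤ} : x ∈ SS hn a p f ↔ ∃ i y, x = pt hn a p i y.1 (f i y) := by
  unfold SS
  rw [mem_image]
  constructor
  · rintro ⟨z, _, rfl⟩
    exact ⟨z.1, z.2, rfl⟩
  · rintro ⟨i, y, rfl⟩
    exact ⟨(i, y), mem_univ _, rfl⟩

/-- all points of a class are congruent -/
theorem pt_sub (hs : 1 ≤ s) {a : Fin k → ℤ} {p : Par n k} {i i' : Fin s} {y y' : Y n k}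
    {j j' : Fin 3} : pt hn a p i y.1 j - pt hn a p i' y'.1 j' ∈ Big s n k a p ↔
      i = i' ∧ y = y' := by
  have hs' : (0 : ℤ) < s := by exact_mod_cast hs
  have hi := i.isLt
  have hi' := i'.isLt
  constructor
  · rintro ⟨u, hu, huL⟩
    simp only [pt, Pi.sub_apply, Fin.cons_zero] at hu
    have h1 : (((i : ℕ) : ℤ) - (i' : ℕ)) = s * (u - j + j') := by linarith
    have h2 : u - j + j' = 0 := by
      have h3 : (s : ℤ) * (u - j + j') < s * 1 := by rw [← h1]; omega
      have h4 : (s : ℤ) * (-(u - j + j')) < s * 1 := by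
        have : (s : ℤ) * (-(u - j + j')) = -(((i : ℕ) : ℤ) - (i' : ℕ)) := by rw [h1]; ring
        rw [this]; omega
      have h5 := lt_of_mul_lt_mul_left h3 hs'.le
      have h6 := lt_of_mul_lt_mul_left h4 hs'.le
      omega
    have hii : i = i' := by
      rw [h2] at h1
      apply Fin.ext
      omega
    refine ⟨hii, ?_⟩
    have hue : u = ((j : ℕ) : ℤ) - (j' : ℕ) := by linarith
    have h7 := red_sub hn p (y.1 + ((j : ℕ) : ℤ) • a)
    have h8 := red_sub hn p (y'.1 + ((j' : ℕ) : ℤ) • a)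
    have h9 : y.1 - y'.1 ∈ Lat n k p := by
      have := (Lat n k p).sub_mem ((Lat n k p).add_mem huL h7) h8
      convert this using 1
      funext t
      simp only [pt, Fin.tail, Pi.sub_apply, Pi.add_apply, Pi.smul_apply, Fin.cons_succ, hue,
        smul_eq_mul]
      ring
    have h10 := red_eq hn (mem_Cu_iff.1 y'.2) h9
    rw [red_self hn (mem_Cu_iff.1 y.2)] at h10
    exact Subtype.ext h10
  · rintro ⟨rfl, rfl⟩
    refine ⟨((j : ℕ) : ℤ) - (j' : ℕ), ?_, ?_⟩
    · simp only [pt, Pi.sub_apply, Fin.cons_zero]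
      ring
    · have h7 := red_sub hn p (y.1 + ((j : ℕ) : ℤ) • a)
      have h8 := red_sub hn p (y.1 + ((j' : ℕ) : ℤ) • a)
      have := (Lat n k p).sub_mem h8 h7
      convert this using 1
      funext t
      simp only [pt, Fin.tail, Pi.sub_apply, Pi.add_apply, Pi.smul_apply, Fin.cons_succ,
        smul_eq_mul]
      ring

/-- every point is congruent to the points of exactly one class -/
theorem exists_class (hs : 1 ≤ s) (a : Fin k → ℤ) (p : Par n k) (x : Fin (k + 1) → ℤ) :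
    ∃ (i : Fin s) (y : Y n k), ∀ j, x - pt hn a p i y.1 j ∈ Big s n k a p := by
  have hs' : (0 : ℤ) < s := by exact_mod_cast hs
  obtain ⟨w, hw1, hw2⟩ := exists_div hs (x 0)
  obtain ⟨m, hm⟩ := Int.eq_ofNat_of_zero_le (show 0 ≤ x 0 - s * w - 1 by linarith)
  have hms : m < s := by omega
  refine ⟨⟨m, hms⟩, ⟨red hn p (Fin.tail x - w • a), mem_Cu_iff.2 (red_mem hn p _)⟩, ?_⟩
  intro j
  refine ⟨w - (j : ℕ), ?_, ?_⟩
  · simp only [pt, Pi.sub_apply, Fin.cons_zero]
    linarith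
  · have h7 := red_sub hn p (red hn p (Fin.tail x - w • a) + ((j : ℕ) : ℤ) • a)
    have h8 := red_sub hn p (Fin.tail x - w • a)
    have := (Lat n k p).add_mem h8 h7
    convert this using 1
    funext t
    simp only [pt, Fin.tail, Pi.sub_apply, Pi.add_apply, Pi.smul_apply, Fin.cons_succ,
      smul_eq_mul]
    ring

theorem big_sub {a : Fin k → ℤ} {p : Par n k} {x y : Fin (k + 1) → ℤ} (hx : x ∈ Big s n k a p)
    (hy : y ∈ Big s n k a p) : x - y ∈ Big s n k a p := by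
  obtain ⟨u, hu, huL⟩ := hx
  obtain ⟨v, hv, hvL⟩ := hy
  refine ⟨u - v, ?_, ?_⟩
  · simp only [Pi.sub_apply, hu, hv]; ring
  · have := (Lat n k p).sub_mem huL hvL
    convert this using 1
    funext t
    simp only [Fin.tail, Pi.sub_apply, Pi.smul_apply, smul_eq_mul]
    ring

/-- `SS` is a system of representatives -/
theorem SS_trans (hs : 1 ≤ s) (a : Fin k → ℤ) (p : Par n k) (f : Fin s → Y n k → Fin 3)
    (x : Fin (k + 1) → ℤ) : ∃! z, z ∈ SS hn a p f ∧ x - z ∈ Big s n k a p := by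
  obtain ⟨i, y, hiy⟩ := exists_class hn hs a p x
  refine ⟨pt hn a p i y.1 (f i y), ⟨(mem_SS hn).2 ⟨i, y, rfl⟩, hiy _⟩, ?_⟩
  rintro z ⟨hz, hxz⟩
  obtain ⟨i', y', rfl⟩ := (mem_SS hn).1 hz
  have h1 := big_sub (hiy (f i y)) hxz
  have h2 : x - pt hn a p i y.1 (f i y) - (x - pt hn a p i' y'.1 (f i' y')) =
      pt hn a p i' y'.1 (f i' y') - pt hn a p i y.1 (f i y) := by abel
  rw [h2, pt_sub hn hs] at h1
  obtain ⟨rfl, rfl⟩ := h1
  rfl

theorem SS_inj (hs : 1 ≤ s) (a : Fin k → ℤ) (p : Par n k) :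
    Function.Injective (fun f : Fin s → Y n k → Fin 3 => SS hn a p f) := by
  intro f g hfg
  funext i y
  have h1 : pt hn a p i y.1 (f i y) ∈ SS hn a p g := by
    rw [show SS hn a p g = SS hn a p f from hfg.symm]
    exact (mem_SS hn).2 ⟨i, y, rfl⟩
  obtain ⟨i', y', h2⟩ := (mem_SS hn).1 h1
  have h3 : pt hn a p i y.1 (f i y) - pt hn a p i' y'.1 (g i' y') ∈ Big s n k a p := by
    rw [h2, sub_self]
    exact ⟨0, by simp, by
      have : Fin.tail (0 : Fin (k + 1) → ℤ) - (0 : ℤ) • a = 0 := by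
        funext t; simp [Fin.tail]
      rw [this]; exact AddSubgroup.zero_mem _⟩
  rw [pt_sub hn hs] at h3
  obtain ⟨rfl, rfl⟩ := h3
  have h4 := congrFun h2 0
  simp only [pt, Fin.cons_zero] at h4
  have hs' : (0 : ℤ) < s := by exact_mod_cast hs
  have h5 : ((f i y : ℕ) : ℤ) * s = ((g i y : ℕ) : ℤ) * s := by linarith
  have h6 := mul_right_cancel₀ hs'.ne' h5
  exact Fin.ext (by exact_mod_cast h6)

/-- the points are in the cube -/
theorem SS_subset (hns : n = 3 * s) (a : Fin k → ℤ) (p : Par n k)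
    (f : Fin s → Y n k → Fin 3) :
    SS hn a p f ⊆ Fintype.piFinset fun _ : Fin (k + 1) => Icc 1 (n : ℤ) := by
  intro x hx
  obtain ⟨i, y, rfl⟩ := (mem_SS hn).1 hx
  rw [mem_Cu_iff]
  intro t
  refine Fin.cases ?_ ?_ t
  · simp only [pt, Fin.cons_zero]
    have hi := i.isLt
    have hj := (f i y).isLt
    have h1 : ((f i y : ℕ) : ℤ) * s ≤ 2 * s := by
      have : ((f i y : ℕ) : ℤ) ≤ 2 := by omega
      have hs' : (0 : ℤ) ≤ s := Int.natCast_nonneg s
      nlinarith
    have h2 : (0 : ℤ) ≤ ((f i y : ℕ) : ℤ) * s := by positivity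
    have hns' : (n : ℤ) = 3 * s := by exact_mod_cast hns
    constructor
    · omega
    · omega
  · intro r
    simpa [pt] using red_mem hn p (y.1 + (((f i y : Fin 3) : ℕ) : ℤ) • a) r

/-- common systems of representatives avoid a pattern in every layer -/
theorem common (hs : 1 ≤ s) {a a' : Fin k → ℤ} {p p' : Par n k} {y y' : Y n k}
    (hyy : red hn p (y'.1 + a) = red hn p' (y.1 + a'))
    {f g : Fin s → Y n k → Fin 3} (h : SS hn a p f = SS hn a' p' g) (i : Fin s) :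
    ¬ (f i y = 0 ∧ f i y' = 1) := by
  rintro ⟨h0, h1⟩
  have hs' : (0 : ℤ) < s := by exact_mod_cast hs
  have m1 : pt hn a p i y.1 0 ∈ SS hn a' p' g := by
    rw [← h, ← h0]; exact (mem_SS hn).2 ⟨i, y, rfl⟩
  have m2 : pt hn a p i y'.1 1 ∈ SS hn a' p' g := by
    rw [← h, ← h1]; exact (mem_SS hn).2 ⟨i, y', rfl⟩
  have e1 : pt hn a p i y.1 0 = Fin.cons (((i : ℕ) : ℤ) + 1) y.1 := by
    unfold pt
    have : y.1 + (((0 : Fin 3) : ℕ) : ℤ) • a = y.1 := by
      funext t; simp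
    rw [this, red_self hn (mem_Cu_iff.1 y.2)]
    congr 1
    simp
  have e2 : pt hn a p i y'.1 1 = Fin.cons (((i : ℕ) : ℤ) + 1 + s) (red hn p' (y.1 + a')) := by
    unfold pt
    have : y'.1 + (((1 : Fin 3) : ℕ) : ℤ) • a = y'.1 + a := by
      funext t; simp
    rw [this, hyy]
    congr 1
    simp
  obtain ⟨z, _, hz⟩ := SS_trans hn hs a' p' g (pt hn a p i y'.1 1)
  have r1 := hz _ ⟨m2, by
    rw [sub_self]
    exact ⟨0, by simp, by
      have : Fin.tail (0 : Fin (k + 1) → ℤ) - (0 : ℤ) • a' = 0 := by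
        funext t; simp [Fin.tail]
      rw [this]; exact AddSubgroup.zero_mem _⟩⟩
  have r2 := hz _ ⟨m1, by
    rw [e1, e2]
    refine ⟨1, by simp, ?_⟩
    have := (Lat n k p').neg_mem (red_sub hn p' (y.1 + a'))
    convert this using 1
    funext t
    simp only [Fin.tail, Pi.sub_apply, Pi.add_apply, Pi.neg_apply, Pi.smul_apply, Fin.cons_succ,
      smul_eq_mul]
    ring⟩
  rw [← r2, e1, e2] at r1
  have := congrFun r1 0
  simp only [Fin.cons_zero] at this
  linarith

end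

end Pool.Agent.TC75
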