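import Mathlib

set_option autoImplicit false

/-!
Lattices for which the cube `{1, ..., n}^k` is a system of representatives, and the lattices of
index `n^(k+1) / 3` in dimension `k + 1` built from them.
-/

namespace Pool.Agent.TC75

/-- the cube `{1, ..., n}^k` -/
def Cu (n k : ℕ) : Set (Fin k → ℤ) := {y | ∀ i, 1 ≤ y i ∧ y i ≤ n}

/-- the parameters of the lattices: a vector in `{0, ..., n - 1}^(k - 1)`, one in
`{0, ..., n - 1}^(k - 2)`, and so on -/
def Par (n : ℕ) : ℕ → Type
  | 0 => Unit
  | k + 1 => (Fin k → Fin n) × Par n k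

noncomputable instance parFintype (n : ℕ) : ∀ k, Fintype (Par n k)
  | 0 => inferInstanceAs (Fintype Unit)
  | k + 1 =>
    letI := parFintype n k
    inferInstanceAs (Fintype ((Fin k → Fin n) × Par n k))

theorem card_par (n : ℕ) : ∀ k, Fintype.card (Par n k) = n ^ (k.choose 2)
  | 0 => by
    show Fintype.card Unit = _
    simp
  | k + 1 => by
    have h : Fintype.card (Par n (k + 1)) = Fintype.card ((Fin k → Fin n) × Par n k) := rfl
    rw [h, Fintype.card_prod, card_par n k, Fintype.card_fun, Fintype.card_fin, Fintype.card_fin,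
      ← pow_add]
    congr 1
    rw [Nat.choose_succ_succ' k 1, Nat.choose_one_right]

/-- integer vector of a vector of residues -/
def toZ {n k : ℕ} (c : Fin k → Fin n) : Fin k → ℤ := fun i => ((c i : ℕ) : ℤ)

/-- the lattices -/
def Lat (n : ℕ) : (k : ℕ) → Par n k → AddSubgroup (Fin k → ℤ)
  | 0, _ => ⊥
  | k + 1, p =>
    { carrier := {x | ∃ u : ℤ, x 0 = n * u ∧ Fin.tail x - u • toZ p.1 ∈ Lat n k p.2}
      add_mem' := by
        rintro x y ⟨u, hu, hu'⟩ ⟨v, hv, hv'⟩
        refine ⟨u + v, ?_, ?_⟩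
        · simp only [Pi.add_apply, hu, hv]; ring
        · have := (Lat n k p.2).add_mem hu' hv'
          convert this using 1
          funext i
          simp only [Fin.tail, Pi.add_apply, Pi.sub_apply, Pi.smul_apply, smul_eq_mul]
          ring
      zero_mem' := by
        refine ⟨0, by simp, ?_⟩
        have h : Fin.tail (0 : Fin (k + 1) → ℤ) - (0 : ℤ) • toZ p.1 = 0 := by
          funext i
          simp [Fin.tail]
        rw [h]
        exact (Lat n k p.2).zero_mem
      neg_mem' := by
        rintro x ⟨u, hu, hu'⟩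
        refine ⟨-u, ?_, ?_⟩
        · simp only [Pi.neg_apply, hu]; ring
        · have := (Lat n k p.2).neg_mem hu'
          convert this using 1
          funext i
          simp only [Fin.tail, Pi.neg_apply, Pi.sub_apply, Pi.smul_apply, smul_eq_mul]
          ring }

theorem mem_lat_succ {n k : ℕ} {p : Par n (k + 1)} {x : Fin (k + 1) → ℤ} :
    x ∈ Lat n (k + 1) p ↔ ∃ u : ℤ, x 0 = n * u ∧ Fin.tail x - u • toZ p.1 ∈ Lat n k p.2 :=
  Iff.rfl

theorem div_unique {n : ℕ} {z u v : ℤ} (hu : 1 ≤ z - n * u ∧ z - n * u ≤ n)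
    (hv : 1 ≤ z - n * v ∧ z - n * v ≤ n) : u = v := by
  have h1 : (n : ℤ) * (u - v) < n * 1 := by linarith
  have h2 : (n : ℤ) * (v - u) < n * 1 := by linarith
  have hn : (0 : ℤ) ≤ n := Int.natCast_nonneg n
  have h3 := lt_of_mul_lt_mul_left h1 hn
  have h4 := lt_of_mul_lt_mul_left h2 hn
  omega

theorem exists_div {n : ℕ} (hn : 1 ≤ n) (z : ℤ) : ∃ u : ℤ, 1 ≤ z - n * u ∧ z - n * u ≤ n := by
  refine ⟨(z - 1) / n, ?_⟩
  have hn' : (0 : ℤ) < n := by exact_mod_cast hn
  have h1 := Int.emod_add_mul_ediv (z - 1) n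
  have h2 := Int.emod_nonneg (z - 1) hn'.ne'
  have h3 := Int.emod_lt_of_pos (z - 1) hn'
  constructor <;> linarith

theorem tile {n : ℕ} (hn : 1 ≤ n) : ∀ (k : ℕ) (p : Par n k) (x : Fin k → ℤ),
    ∃! y, y ∈ Cu n k ∧ x - y ∈ Lat n k p := by
  intro k
  induction k with
  | zero =>
    intro p x
    refine ⟨x, ⟨fun i => i.elim0, ?_⟩, fun _ _ => Subsingleton.elim _ _⟩
    rw [sub_self]
    exact AddSubgroup.zero_mem _
  | succ k ih =>
    intro p x
    obtain ⟨u, hu⟩ := exists_div hn (x 0)
    obtain ⟨y, ⟨hy, hyL⟩, hyu⟩ := ih p.2 (Fin.tail x - u • toZ p.1)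
    refine ⟨Fin.cons (x 0 - n * u) y, ⟨?_, ?_⟩, ?_⟩
    · intro i
      refine Fin.cases ?_ ?_ i
      · simpa using hu
      · intro j
        simpa using hy j
    · rw [mem_lat_succ]
      refine ⟨u, by simp, ?_⟩
      convert hyL using 1
      funext i
      simp only [Fin.tail, Pi.sub_apply, Fin.cons_succ, Pi.smul_apply]
      ring
    · rintro z ⟨hz, hzL⟩
      obtain ⟨v, hv, hvL⟩ := mem_lat_succ.1 hzL
      have hz0 := hz 0
      have hzv : z 0 = x 0 - n * v := by
        simp only [Pi.sub_apply] at hv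
        linarith
      have huv : u = v := div_unique hu (by rw [← hzv]; exact hz0)
      subst huv
      have h1 : Fin.tail z = y := by
        apply hyu
        refine ⟨fun i => hz i.succ, ?_⟩
        convert hvL using 1
        funext i
        simp only [Fin.tail, Pi.sub_apply, Pi.smul_apply]
        ring
      rw [← h1, ← hzv, Fin.cons_self_tail]

section
variable {n k : ℕ} (hn : 1 ≤ n)

/-- the representative in the cube -/
noncomputable def red (p : Par n k) (x : Fin k → ℤ) : Fin k → ℤ := (tile hn k p x).choose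

theorem red_mem (p : Par n k) (x : Fin k → ℤ) : red hn p x ∈ Cu n k :=
  (tile hn k p x).choose_spec.1.1

theorem red_sub (p : Par n k) (x : Fin k → ℤ) : x - red hn p x ∈ Lat n k p :=
  (tile hn k p x).choose_spec.1.2

theorem red_eq {p : Par n k} {x y : Fin k → ℤ} (hy : y ∈ Cu n k) (h : x - y ∈ Lat n k p) :
    red hn p x = y :=
  (tile hn k p x).unique ⟨red_mem hn p x, red_sub hn p x⟩ ⟨hy, h⟩

theorem red_congr {p : Par n k} {x y : Fin k → ℤ} (h : x - y ∈ Lat n k p) :
    red hn p x = red hn p y := by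
  apply red_eq hn (red_mem hn p y)
  have := (Lat n k p).add_mem h (red_sub hn p y)
  rwa [sub_add_sub_cancel] at this

theorem sub_mem_of_red {p : Par n k} {x y : Fin k → ℤ} (h : red hn p x = red hn p y) :
    x - y ∈ Lat n k p := by
  have h1 := (Lat n k p).sub_mem (red_sub hn p x) (red_sub hn p y)
  rw [h] at h1
  convert h1 using 1
  abel

theorem red_self {p : Par n k} {y : Fin k → ℤ} (hy : y ∈ Cu n k) : red hn p y = y := by
  apply red_eq hn hy
  rw [sub_self]
  exact AddSubgroup.zero_mem _

end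

theorem red_cons {n k : ℕ} (hn : 1 ≤ n) (p : Par n (k + 1)) (x : Fin (k + 1) → ℤ) (u : ℤ)
    (hu : 1 ≤ x 0 - n * u ∧ x 0 - n * u ≤ n) :
    red hn p x = Fin.cons (x 0 - n * u) (red hn p.2 (Fin.tail x - u • toZ p.1)) := by
  apply red_eq hn
  · intro i
    refine Fin.cases ?_ ?_ i
    · simpa using hu
    · intro j
      simpa using red_mem hn p.2 (Fin.tail x - u • toZ p.1) j
  · rw [mem_lat_succ]
    refine ⟨u, by simp, ?_⟩
    convert red_sub hn p.2 (Fin.tail x - u • toZ p.1) using 1
    funext i
    simp only [Fin.tail, Pi.sub_apply, Fin.cons_succ, Pi.smul_apply]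
    ring

theorem toZ_mem {n k : ℕ} (c : Fin k → Fin n) : toZ c + 1 ∈ Cu n k := by
  intro i
  have := (c i).isLt
  simp only [toZ, Pi.add_apply, Pi.one_apply]
  omega

theorem toZ_inj {n k : ℕ} {c c' : Fin k → Fin n} (h : toZ c = toZ c') : c = c' := by
  funext i
  have := congrFun h i
  simp only [toZ, Nat.cast_inj] at this
  exact Fin.ext this

/-- the translation determines the vector and the lattice -/
theorem inj {n : ℕ} (hn : 1 ≤ n) : ∀ (k : ℕ) (p p' : Par n k) (a a' : Fin k → ℤ),
    (∀ i, 1 ≤ a i ∧ a i < n) → (∀ i, 1 ≤ a' i ∧ a' i < n) →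
    (∀ y ∈ Cu n k, red hn p (y + a) = red hn p' (y + a')) → a = a' ∧ p = p' := by
  intro k
  induction k with
  | zero =>
    intro p p' a a' _ _ _
    exact ⟨Subsingleton.elim _ _, rfl⟩
  | succ k ih =>
    intro p p' a a' ha ha' h
    have ha0 := ha 0
    have ha0' := ha' 0
    -- first coordinate 1
    have key1 : ∀ y ∈ Cu n k, a 0 = a' 0 ∧
        red hn p.2 (y + Fin.tail a) = red hn p'.2 (y + Fin.tail a') := by
      intro y hy
      have h1 := h (Fin.cons 1 y) (by
        intro i
        refine Fin.cases ?_ ?_ i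
        · simp only [Fin.cons_zero]; omega
        · intro j; simpa using hy j)
      rw [red_cons hn p _ 0 (by simp only [Pi.add_apply, Fin.cons_zero]; omega),
        red_cons hn p' _ 0 (by simp only [Pi.add_apply, Fin.cons_zero]; omega)] at h1
      have h2 := congrFun h1 0
      have h3 := congrArg Fin.tail h1
      simp only [Fin.cons_zero, Pi.add_apply, mul_zero, sub_zero] at h2
      rw [Fin.tail_cons, Fin.tail_cons] at h3
      refine ⟨by linarith, ?_⟩
      convert h3 using 2 <;>
      · funext i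
        simp [Fin.tail]
    -- first coordinate n
    have key2 : ∀ y ∈ Cu n k, red hn p.2 (y + Fin.tail a - toZ p.1) =
        red hn p'.2 (y + Fin.tail a' - toZ p'.1) := by
      intro y hy
      have h1 := h (Fin.cons (n : ℤ) y) (by
        intro i
        refine Fin.cases ?_ ?_ i
        · simp only [Fin.cons_zero]; omega
        · intro j; simpa using hy j)
      rw [red_cons hn p _ 1 (by simp only [Pi.add_apply, Fin.cons_zero]; omega),
        red_cons hn p' _ 1 (by simp only [Pi.add_apply, Fin.cons_zero]; omega)] at h1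
      have h3 := congrArg Fin.tail h1
      rw [Fin.tail_cons, Fin.tail_cons] at h3
      convert h3 using 2 <;>
      · funext i
        simp [Fin.tail]
    obtain ⟨e1, e2⟩ := ih p.2 p'.2 (Fin.tail a) (Fin.tail a') (fun i => ha i.succ)
      (fun i => ha' i.succ) (fun y hy => (key1 y hy).2)
    have hone : (1 : Fin k → ℤ) ∈ Cu n k := by
      intro i
      simp only [Pi.one_apply]
      omega
    have e0 : a 0 = a' 0 := (key1 1 hone).1
    have hc : p.1 = p'.1 := by
      have h4 := key2 1 hone
      rw [← e1, ← e2] at h4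
      have h5 := sub_mem_of_red hn h4
      have h6 : toZ p'.1 + 1 - (toZ p.1 + 1) ∈ Lat n k p.2 := by
        convert h5 using 1
        abel
      have h7 := red_eq hn (toZ_mem p.1) h6
      rw [red_self hn (toZ_mem p'.1)] at h7
      exact (toZ_inj (add_right_cancel h7)).symm
    refine ⟨?_, Prod.ext hc e2⟩
    rw [← Fin.cons_self_tail a, ← Fin.cons_self_tail a', e0, e1]

end Pool.Agent.TC75
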